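import Pool.Agent.Work.MP_6a50bc_pr.Final

/-! Minimal nuclear norm solutions of random ellipsoid fitting exist and are positive
semidefinite, on a measurable event of probability at least `1 - 2 / (log d) ^ 2`. -/

set_option autoImplicit false

namespace Pool.Agent.Results.MP_6a50bc_pr.UniformRate

open Filter Topology MeasureTheory ProbabilityTheory Matrix
open Pool.Agent.Work.MP_6a50bc_pr

/-- Real symmetric `d × d` matrices. -/
abbrev Sym (d : ℕ) : Type := {S : Matrix (Fin d) (Fin d) ℝ // S.IsHermitian}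

/-- The nuclear norm: the sum of the absolute values of the eigenvalues. -/
noncomputable def nuclear {d : ℕ} (S : Sym d) : ℝ := ∑ j, |S.2.eigenvalues j|

/-- `S` solves the system `xᵢᵀ S xᵢ = 1`. -/
def Solves {n d : ℕ} (x : Fin n → EuclideanSpace ℝ (Fin d)) (S : Sym d) : Prop :=
  ∀ i, (x i).ofLp ⬝ᵥ (S.1 *ᵥ (x i).ofLp) = 1

/-- `S` is a solution of least nuclear norm. -/
def MinSol {n d : ℕ} (x : Fin n → EuclideanSpace ℝ (Fin d)) (S : Sym d) : Prop :=
  Solves x S ∧ ∀ T : Sym d, Solves x T → nuclear S ≤ nuclear T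

theorem exists_min {ι κ : Type} [Fintype ι] [Fintype κ] [DecidableEq κ] {b : ℝ} {g : ι → κ → ℝ}
    {S₀ : Matrix κ κ ℝ} (h0 : S₀.IsHermitian) (h1 : ∀ i, qf S₀ (g i) = b) :
    ∃ S : Matrix κ κ ℝ, S.IsHermitian ∧ (∀ i, qf S (g i) = b) ∧
      ∀ T : Matrix κ κ ℝ, T.IsHermitian → (∀ i, qf T (g i) = b) → nuc S ≤ nuc T := by
  have hc : IsClosed {S : Matrix κ κ ℝ | ∀ i, qf S (g i) = b} := by
    rw [Set.ofPred_forall]
    exact isClosed_iInter fun i => isClosed_eq (by unfold qf; fun_prop) continuous_const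
  have hK : IsCompact ({S : Matrix κ κ ℝ | fro S ≤ nuc S₀} ∩
      ({S | S.IsHermitian} ∩ {S | ∀ i, qf S (g i) = b})) :=
    (isCompact_fro_le _).inter_right (isClosed_isHermitian.inter hc)
  have hm : S₀ ∈ {S : Matrix κ κ ℝ | fro S ≤ nuc S₀} ∩
      ({S | S.IsHermitian} ∩ {S | ∀ i, qf S (g i) = b}) := ⟨fro_le_nuc h0, h0, h1⟩
  obtain ⟨S, hS, hmin⟩ := hK.exists_isMinOn (f := nuc) ⟨_, hm⟩ (by
    rw [continuousOn_iff_continuous_domRestrict]
    exact continuous_nuc continuous_subtype_val fun x => x.2.2.1)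
  refine ⟨S, hS.2.1, hS.2.2, fun T hT hT' => ?_⟩
  by_cases h : fro T ≤ nuc S₀
  · exact hmin ⟨h, hT, hT'⟩
  · exact (hmin hm).trans ((not_le.mp h).le.trans (fro_le_nuc hT))

theorem fit_zero {d : ℕ} (b : ℝ) (g : Fin 0 → Fin d → ℝ) : Fit b g := by
  refine ⟨⟨0, isHermitian_zero, fun i => i.elim0⟩, fun S hS _ h => ?_⟩
  have h1 := h 0 isHermitian_zero fun i => i.elim0
  rw [nuc_zero, nuc_eq_sum_abs_eigenvalues hS] at h1
  refine hS.posSemidef_iff_eigenvalues_nonneg.2 fun j => ?_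
  have := (Finset.single_le_sum (f := fun j => |hS.eigenvalues j|) (fun _ _ => abs_nonneg _)
    (Finset.mem_univ j)).trans h1
  exact (abs_nonpos_iff.1 this).ge

theorem mp_vec {d : ℕ} (hd : 0 < d) :
    MeasurePreserving (fun (v : EuclideanSpace ℝ (Fin d)) a => √(d : ℝ) * v a)
      (multivariateGaussian 0 ((d : ℝ)⁻¹ • (1 : Matrix (Fin d) (Fin d) ℝ))) (gv (Fin d)) := by
  have hd' : (0 : ℝ) < d := Nat.cast_pos.mpr hd
  have e : multivariateGaussian 0 ((d : ℝ)⁻¹ • (1 : Matrix (Fin d) (Fin d) ℝ)) =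
      (stdGaussian (EuclideanSpace ℝ (Fin d))).map (√((d : ℝ)⁻¹) • ·) := by
    have : IsProbabilityMeasure
        ((stdGaussian (EuclideanSpace ℝ (Fin d))).map (√((d : ℝ)⁻¹) • ·)) :=
      Measure.isProbabilityMeasure_map (by fun_prop)
    apply Measure.ext_of_charFun
    ext t
    rw [charFun_multivariateGaussian (PosSemidef.one.smul (by positivity)), charFun_map_smul,
      charFun_stdGaussian, norm_smul, smul_mulVec, one_mulVec, dotProduct_smul]
    congr 1
    have h1 : (‖√((d : ℝ)⁻¹)‖ * ‖t‖) ^ 2 = (d : ℝ)⁻¹ • (t.ofLp ⬝ᵥ t.ofLp) := by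
      rw [mul_pow, Real.norm_eq_abs, sq_abs, Real.sq_sqrt (by positivity),
        EuclideanSpace.real_norm_sq_eq, smul_eq_mul, dotProduct]
      simp only [sq]
    rw [← h1]
    simp [neg_div]
  refine ⟨by fun_prop, ?_⟩
  rw [e, ← map_pi_eq_stdGaussian, Measure.map_map (by fun_prop) (by fun_prop),
    Measure.map_map (by fun_prop) (by fun_prop)]
  have : (((fun (v : EuclideanSpace ℝ (Fin d)) a => √(d : ℝ) * v a) ∘ (√((d : ℝ)⁻¹) • ·)) ∘
      WithLp.toLp 2) = id := by
    ext g a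
    simp only [Function.comp, PiLp.smul_apply, smul_eq_mul, id, Real.sqrt_inv]
    have := Real.sqrt_pos.2 hd'
    field_simp
  rw [this, Measure.map_id]
  rfl

/-- For every `ε > 0`, all large `d` and all `n ≤ (1 - ε) d² / 4`, for independent `N(0, I / d)`
vectors on any probability space there is an event of probability at least `1 - 2 / (log d)²` on
which a solution of least nuclear norm exists and every such solution is positive semidefinite. -/
theorem result.{u} (ε : ℝ) (hε : 0 < ε) : ∃ D : ℕ, ∀ d : ℕ, D ≤ d → ∀ n : ℕ,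
    (n : ℝ) ≤ (1 - ε) / 4 * (d : ℝ) ^ 2 →
    ∀ (Ω : Type u) [MeasurableSpace Ω] (P : Measure Ω) [IsProbabilityMeasure P]
      (X : Fin n → Ω → EuclideanSpace ℝ (Fin d)), iIndepFun X P →
      (∀ i, HasLaw (X i)
        (multivariateGaussian 0 ((d : ℝ)⁻¹ • (1 : Matrix (Fin d) (Fin d) ℝ))) P) →
      ∃ E : Set Ω, MeasurableSet E ∧ 1 - 2 / Real.log d ^ 2 ≤ P.real E ∧ ∀ ω ∈ E,
        (∃ S : Sym d, MinSol (fun i => X i ω) S) ∧
          ∀ S : Sym d, MinSol (fun i => X i ω) S → S.1.PosSemidef := by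
  have hL : Tendsto (fun d : ℕ => Real.log d) atTop atTop :=
    Real.tendsto_log_atTop.comp tendsto_natCast_atTop_atTop
  obtain ⟨D, hD⟩ := eventually_atTop.1
    ((not_fit_le (e := min ε 1) (by positivity) (min_le_right _ _)).and
      ((hL.eventually (eventually_le_exp 30 2)).and
        ((hL.eventually_gt_atTop 0).and (eventually_gt_atTop 0))))
  refine ⟨D, fun d hd n hn Ω _ P _ X hi hX => ?_⟩
  obtain ⟨h1, h2, h3, hd0⟩ := hD d hd
  have hd' : (0 : ℝ) < d := Nat.cast_pos.mpr hd0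
  have h4 : failProb (Real.log d) ≤ 2 / Real.log d ^ 2 := by
    generalize Real.log d = L at h2 h3
    have a1 : Real.exp (-L) ≤ 1 / Real.exp (L / 16) := by
      rw [one_div, ← Real.exp_neg]
      exact Real.exp_le_exp.2 (by linarith)
    have a2 : 30 * (1 / Real.exp (L / 16)) ≤ 1 / L ^ 2 := by
      rw [mul_one_div, div_le_div_iff₀ (Real.exp_pos _) (by positivity)]
      linarith
    rw [failProb, div_eq_mul_one_div 10, div_eq_mul_one_div 2]
    linarith
  have h5 : gm (Fin n) (Fin d) {x | ¬ Fit (d : ℝ) x} ≤ ENNReal.ofReal (2 / Real.log d ^ 2) := by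
    rcases n.eq_zero_or_pos with rfl | hn0
    · simp [fit_zero]
    · refine (h1 n hn0 ?_).trans (ENNReal.ofReal_le_ofReal h4)
      nlinarith [mul_le_mul_of_nonneg_right (min_le_left ε 1) (sq_nonneg (d : ℝ))]
  have mp : MeasurePreserving
      (fun (x : Fin n → EuclideanSpace ℝ (Fin d)) i a => √(d : ℝ) * x i a) _
      (gm (Fin n) (Fin d)) := measurePreserving_pi _ _ fun _ => mp_vec hd0
  have hl := mp.hasLaw.fun_comp (hi.hasLaw_pi hX)
  have h6 := (Measure.le_map_apply hl.aemeasurable {x | ¬ Fit (d : ℝ) x}).trans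
    (hl.map_eq ▸ h5)
  refine ⟨(toMeasurable P _)ᶜ, (measurableSet_toMeasurable P
    ((fun ω i a => √(d : ℝ) * X i ω a) ⁻¹' {x | ¬ Fit (d : ℝ) x})).compl, ?_, fun ω hω => ?_⟩
  · rw [probReal_compl_eq_one_sub (measurableSet_toMeasurable _ _), measureReal_def,
      measure_toMeasurable]
    exact sub_le_sub_left (ENNReal.toReal_le_of_le_ofReal (by positivity) h6) 1
  have hf : Fit (d : ℝ) fun i a => √(d : ℝ) * X i ω a := by
    by_contra c
    exact hω (subset_toMeasurable _ _ c)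
  have key : ∀ (S : Matrix (Fin d) (Fin d) ℝ) (i : Fin n),
      qf S (fun a => √(d : ℝ) * X i ω a) = d ↔ (X i ω).ofLp ⬝ᵥ (S *ᵥ (X i ω).ofLp) = 1 := by
    intro S i
    have := qf_smul_vec √(d : ℝ) S (X i ω).ofLp
    rw [Real.sq_sqrt hd'.le] at this
    exact (iff_of_eq (congrArg (· = (d : ℝ)) this)).trans (mul_eq_left₀ hd'.ne')
  constructor
  · obtain ⟨S₀, a1, a2⟩ := hf.1
    obtain ⟨S, b1, b2, b3⟩ := exists_min a1 a2
    refine ⟨⟨S, b1⟩, fun i => (key S i).1 (b2 i), fun T hT => ?_⟩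
    have := b3 T.1 T.2 fun i => (key _ i).2 (hT i)
    rwa [nuc_eq_sum_abs_eigenvalues b1, nuc_eq_sum_abs_eigenvalues T.2] at this
  · refine fun S hS => hf.2 S.1 S.2 (fun i => (key _ i).2 (hS.1 i)) fun T hT hT' => ?_
    rw [nuc_eq_sum_abs_eigenvalues S.2, nuc_eq_sum_abs_eigenvalues hT]
    exact hS.2 ⟨T, hT⟩ fun i => (key _ i).1 (hT' i)

end Pool.Agent.Results.MP_6a50bc_pr.UniformRate
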